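import Mathlib

/-!
# `a ^ 4 = b ^ 4 + c ^ 2` has no solution in coprime integers with `b c` nonzero
-/

namespace Pool.Agent.H71M.H15

theorem sq_pos_of_coprime {a b c : ℤ} (h : Int.gcd a b = 1) (ha : 0 < a) (heq : a * b = c ^ 2) :
    ∃ e : ℤ, a = e ^ 2 := by
  obtain ⟨e, he | he⟩ := Int.sq_of_gcd_eq_one h heq
  · exact ⟨e, he⟩
  · exfalso
    have := sq_nonneg e
    linarith

theorem no_diff_aux (n : ℕ) : ∀ a b c : ℤ, a.natAbs < n → Int.gcd a b = 1 → b ≠ 0 → c ≠ 0 →
    a ^ 4 ≠ b ^ 4 + c ^ 2 := by
  induction n with
  | zero => intro a b c h; exact absurd h (Nat.not_lt_zero _)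
  | succ n ih =>
    intro a b c hlt hgcd hb hc heq
    have hb2 : 0 < b ^ 2 := by positivity
    have hc2 : 0 < c ^ 2 := by positivity
    have hb4 : 0 < b ^ 4 := by positivity
    have ha0 : a ≠ 0 := by
      rintro rfl
      norm_num at heq
      linarith
    have ha2 : 0 < a ^ 2 := by positivity
    have hcop : IsCoprime a b := Int.isCoprime_iff_gcd_eq_one.mpr hgcd
    -- `b ^ 2` and `c` are coprime
    have hbc : IsCoprime b c := by
      have h1 : IsCoprime (b ^ 4) (a ^ 4) := (hcop.symm).pow
      have h2 : IsCoprime (b ^ 4) (c ^ 2) := by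
        rw [heq] at h1
        have : IsCoprime (b ^ 4) (c ^ 2 + b ^ 4 * 1) := by rwa [mul_one, add_comm]
        exact (IsCoprime.add_mul_left_right_iff).mp this
      exact (IsCoprime.pow_iff (by norm_num) (by norm_num)).mp h2
    rcases Int.emod_two_eq_zero_or_one c with hce | hco
    · -- `c` even, `b` odd
      have hbo : b % 2 = 1 := by
        rcases Int.emod_two_eq_zero_or_one b with h | h
        · exfalso
          have h1 : (2 : ℤ) ∣ b := Int.dvd_of_emod_eq_zero h
          have h2 : (2 : ℤ) ∣ c := Int.dvd_of_emod_eq_zero hce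
          have := hbc.isUnit_of_dvd' h1 h2
          rw [Int.isUnit_iff] at this
          omega
        · exact h
      have ht : PythagoreanTriple (b ^ 2) c (a ^ 2) := by
        unfold PythagoreanTriple; linear_combination -heq
      have hg2 : Int.gcd (b ^ 2) c = 1 := Int.isCoprime_iff_gcd_eq_one.mp hbc.pow_left
      have hpar : b ^ 2 % 2 = 1 := by
        rw [sq, Int.mul_emod, hbo]; norm_num
      obtain ⟨m, k, h1, h2, h3, h4, -, h5⟩ := ht.coprime_classification' hg2 hpar ha2
      have hk : k ≠ 0 := by rintro rfl; apply hc; rw [h2]; ring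
      have hkk : 0 < k ^ 2 := by positivity
      refine ih m k (a * b) ?_ h4 hk (mul_ne_zero ha0 hb) ?_
      · have h6 : m ^ 2 < a ^ 2 := by rw [h3]; linarith
        have h7 : m.natAbs < a.natAbs := Int.natAbs_lt_iff_sq_lt.mpr h6
        omega
      · have : (a * b) ^ 2 = a ^ 2 * b ^ 2 := by ring
        rw [this, h1, h3]; ring
    · -- `c` odd
      have hbe : b % 2 = 0 := by
        rcases Int.emod_two_eq_zero_or_one b with h | h
        · exact h
        · exfalso
          -- a ^ 4 = 1 + 1 = 2 mod 4
          have h1 : b ^ 4 % 4 = 1 := by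
            have : b % 4 = 1 ∨ b % 4 = 3 := by omega
            rcases this with h' | h' <;> simp [pow_succ, Int.mul_emod, h']
          have h2 : c ^ 2 % 4 = 1 := by
            have : c % 4 = 1 ∨ c % 4 = 3 := by omega
            rcases this with h' | h' <;> simp [pow_succ, Int.mul_emod, h']
          have h3 : a ^ 4 % 4 = 0 ∨ a ^ 4 % 4 = 1 := by
            have : a % 4 = 0 ∨ a % 4 = 1 ∨ a % 4 = 2 ∨ a % 4 = 3 := by omega
            rcases this with h' | h' | h' | h' <;> simp [pow_succ, Int.mul_emod, h']
          omega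
      have ht : PythagoreanTriple c (b ^ 2) (a ^ 2) := by
        unfold PythagoreanTriple; linear_combination -heq
      have hg2 : Int.gcd c (b ^ 2) = 1 := Int.isCoprime_iff_gcd_eq_one.mp hbc.symm.pow_right
      obtain ⟨m, k, h1, h2, h3, h4, h5, h6⟩ := ht.coprime_classification' hg2 hco ha2
      have hmk : 0 < m * k := by nlinarith
      have hm : 0 < m := by
        rcases h6.lt_or_eq with h | h
        · exact h
        · rw [← h] at hmk; simp at hmk
      have hk : 0 < k := by
        by_contra hneg
        push_neg at hneg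
        nlinarith
      obtain ⟨b', hb'⟩ : (2 : ℤ) ∣ b := Int.dvd_of_emod_eq_zero hbe
      -- find `t`, `r`
      have key : ∃ t r : ℤ, a ^ 2 = t ^ 4 + 4 * r ^ 4 ∧ t % 2 = 1 ∧ r ≠ 0 ∧ IsCoprime t (2 * r) := by
        have hmk' : IsCoprime m k := Int.isCoprime_iff_gcd_eq_one.mpr h4
        rcases h5 with ⟨hme, hko⟩ | ⟨hmo, hke⟩
        · obtain ⟨m', hm'⟩ : (2 : ℤ) ∣ m := Int.dvd_of_emod_eq_zero hme
          have hc1 : IsCoprime m' k := (hmk'.of_isCoprime_of_dvd_left ⟨2, by rw [hm']; ring⟩)
          have he1 : m' * k = b' ^ 2 := by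
            have : 4 * (m' * k) = 4 * b' ^ 2 := by
              have : b ^ 2 = 2 * m * k := h2
              rw [hb', hm'] at this
              linarith
            linarith
          have hm'0 : 0 < m' := by omega
          obtain ⟨r, hr⟩ := sq_pos_of_coprime (Int.isCoprime_iff_gcd_eq_one.mp hc1) hm'0 he1
          obtain ⟨t, ht'⟩ := sq_pos_of_coprime (Int.isCoprime_iff_gcd_eq_one.mp hc1.symm) hk
            (by rw [mul_comm]; exact he1)
          refine ⟨t, r, ?_, ?_, ?_, ?_⟩
          · rw [h3, hm', hr, ht']; ring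
          · rcases Int.emod_two_eq_zero_or_one t with h | h
            · exfalso
              rw [ht', sq, Int.mul_emod, h] at hko
              norm_num at hko
            · exact h
          · rintro rfl
            rw [hr] at hm'0; norm_num at hm'0
          · have h7 : IsCoprime (t ^ 2) (2 * r ^ 2) := by
              rw [← ht', ← hr, ← hm']; exact hmk'.symm
            have h8 : IsCoprime t (2 * r ^ 2) := (IsCoprime.pow_left_iff (by norm_num)).mp h7
            exact h8.of_isCoprime_of_dvd_right ⟨r, by ring⟩
        · obtain ⟨k', hk'⟩ : (2 : ℤ) ∣ k := Int.dvd_of_emod_eq_zero hke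
          have hc1 : IsCoprime m k' := (hmk'.of_isCoprime_of_dvd_right ⟨2, by rw [hk']; ring⟩)
          have he1 : m * k' = b' ^ 2 := by
            have : 4 * (m * k') = 4 * b' ^ 2 := by
              have : b ^ 2 = 2 * m * k := h2
              rw [hb', hk'] at this
              linarith
            linarith
          have hk'0 : 0 < k' := by omega
          obtain ⟨t, ht'⟩ := sq_pos_of_coprime (Int.isCoprime_iff_gcd_eq_one.mp hc1) hm he1
          obtain ⟨r, hr⟩ := sq_pos_of_coprime (Int.isCoprime_iff_gcd_eq_one.mp hc1.symm) hk'0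
            (by rw [mul_comm]; exact he1)
          refine ⟨t, r, ?_, ?_, ?_, ?_⟩
          · rw [h3, hk', hr, ht']; ring
          · rcases Int.emod_two_eq_zero_or_one t with h | h
            · exfalso
              rw [ht', sq, Int.mul_emod, h] at hmo
              norm_num at hmo
            · exact h
          · rintro rfl
            rw [hr] at hk'0; norm_num at hk'0
          · have h7 : IsCoprime (t ^ 2) (2 * r ^ 2) := by
              rw [← ht', ← hr, ← hk']; exact hmk'
            have h8 : IsCoprime t (2 * r ^ 2) := (IsCoprime.pow_left_iff (by norm_num)).mp h7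
            exact h8.of_isCoprime_of_dvd_right ⟨r, by ring⟩
      obtain ⟨t, r, ha, hto, hr0, hcop2⟩ := key
      have ht0 : t ≠ 0 := by rintro rfl; norm_num at hto
      have htri : PythagoreanTriple (t ^ 2) (2 * r ^ 2) |a| := by
        unfold PythagoreanTriple
        rw [abs_mul_abs_self]
        linear_combination -ha
      have hg3 : Int.gcd (t ^ 2) (2 * r ^ 2) = 1 := by
        apply Int.isCoprime_iff_gcd_eq_one.mp
        apply IsCoprime.pow_left
        have h9 : IsCoprime t 2 := hcop2.of_mul_right_left
        have h10 : IsCoprime t r := hcop2.of_mul_right_right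
        exact h9.mul_right (h10.pow_right)
      have hpar2 : t ^ 2 % 2 = 1 := by rw [sq, Int.mul_emod, hto]; norm_num
      obtain ⟨p, q, e1, e2, e3, e4, -, e5⟩ :=
        htri.coprime_classification' hg3 hpar2 (abs_pos.mpr ha0)
      have hr2 : 0 < r ^ 2 := by positivity
      have hpq : p * q = r ^ 2 := by nlinarith
      have hp : 0 < p := by
        rcases e5.lt_or_eq with h | h
        · exact h
        · rw [← h] at hpq; rw [zero_mul] at hpq; rw [← hpq] at hr2; exact absurd hr2 (lt_irrefl _)
      have hq : 0 < q := by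
        by_contra hneg
        push_neg at hneg
        nlinarith
      obtain ⟨e, he⟩ := sq_pos_of_coprime e4 hp hpq
      obtain ⟨f, hf⟩ := sq_pos_of_coprime (by rw [Int.gcd_comm]; exact e4) hq
        (by rw [mul_comm]; exact hpq)
      have hf0 : f ≠ 0 := by rintro rfl; rw [hf] at hq; norm_num at hq
      refine ih e f t ?_ ?_ hf0 ht0 ?_
      · have h11 : e ^ 2 < |a| := by
          rw [e3, ← he]
          have : 0 < q ^ 2 := by positivity
          nlinarith
        have h12 : (e.natAbs : ℤ) ≤ e ^ 2 := by
          rw [← Int.natAbs_sq]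
          have : (0 : ℤ) ≤ e.natAbs := Int.natCast_nonneg _
          rcases Nat.eq_zero_or_pos e.natAbs with h | h
          · rw [h]; norm_num
          · have : (1 : ℤ) ≤ e.natAbs := by exact_mod_cast h
            nlinarith
        have h13 : ((a.natAbs : ℕ) : ℤ) = |a| := Int.natCast_natAbs a
        have h14 : (e.natAbs : ℤ) < a.natAbs := by rw [h13]; linarith
        have h15 : e.natAbs < a.natAbs := by exact_mod_cast h14
        omega
      · have h16 : IsCoprime (e ^ 2) (f ^ 2) := by
          rw [← he, ← hf]; exact Int.isCoprime_iff_gcd_eq_one.mpr e4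
        exact Int.isCoprime_iff_gcd_eq_one.mp
          ((IsCoprime.pow_iff (by norm_num) (by norm_num)).mp h16)
      · have : e ^ 4 = (e ^ 2) ^ 2 := by ring
        have h17 : f ^ 4 = (f ^ 2) ^ 2 := by ring
        rw [this, h17, ← he, ← hf, e1]; ring

/-- No difference of two coprime fourth powers is a nonzero square. -/
theorem no_diff {a b c : ℕ} (hcop : Nat.Coprime a b) (hb : b ≠ 0) (hc : c ≠ 0) :
    a ^ 4 ≠ b ^ 4 + c ^ 2 := by
  intro h
  refine no_diff_aux ((a : ℤ).natAbs + 1) a b c (Nat.lt_succ_self _) ?_ (by exact_mod_cast hb)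
    (by exact_mod_cast hc) (by exact_mod_cast h)
  exact_mod_cast hcop

end Pool.Agent.H71M.H15
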