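import Pool.Agent.Helper71_Miya.Basic
import Pool.Agent.Helper15_Miya.Diff4

/-!
# The class `f - g = 5`, `f + g = 5` modulo 8
-/

namespace Pool.Agent.H71M.H15

open scoped NumberTheorySymbols

section
variable {g d x y z : ℕ}

/-- modulo the primes of `d` -/
theorem powD (S : Sol g d x y z) {p : ℕ} (hp : p.Prime) (h : p ∣ d) :
    (((Cc g d : ℕ) : ℤ) : ZMod p) ^ ((x - y) + (y - x)) = -1 := by
  have : Fact p.Prime := ⟨hp⟩
  have hC0 : ((Cc g d : ℕ) : ZMod p) ≠ 0 := by
    intro h0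
    have h1 : p ∣ Cc g d := (ZMod.natCast_eq_zero_iff _ _).mp h0
    exact Nat.not_coprime_of_dvd_of_dvd hp.one_lt h h1 (cop_dC S.hd S.cop)
  have hd0 : ((d : ℕ) : ZMod p) = 0 := (ZMod.natCast_eq_zero_iff _ _).mpr h
  have hB : ((Bb g d : ℕ) : ZMod p) = ((Cc g d : ℕ) : ZMod p) := by
    have := congrArg (fun n : ℕ => (n : ZMod p)) (rel_Cd (g := g) (d := d))
    simp only [Nat.cast_add, Nat.cast_pow] at this
    rw [hd0] at this
    rw [this]; ring
  have hA : ((Aa g d : ℕ) : ZMod p) = 0 := by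
    unfold Aa; rw [Nat.cast_mul, hd0, zero_mul]
  have h1 := congrArg (fun n : ℕ => (n : ZMod p)) S.eq
  simp only [Nat.cast_add, Nat.cast_pow] at h1
  rw [hA, zero_pow S.hz.ne', hB] at h1
  rw [Int.cast_natCast]
  exact cancel_pow hC0 (e := -1) (by ring) (by linear_combination h1)

/-- the exponent of `2` in `|x - y|` when `d = 5` modulo 8 -/
theorem val_xy (S : Sol g d x y z) (h1 : d % 8 = 5) (hxy : ((x - y) + (y - x)) % 2 = 0) :
    ((x - y) + (y - x)) % 4 = 2 := by
  have hd1 : d ≠ 1 := by omega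
  obtain ⟨p, hp, hpd⟩ := Nat.exists_prime_and_dvd hd1
  set n := (x - y) + (y - x) with hn
  have hn0 : n ≠ 0 := by
    intro h0
    have := powD S hp hpd
    rw [← hn, h0, pow_zero] at this
    have : Fact p.Prime := ⟨hp⟩
    have hp2 : p ≠ 2 := by
      rintro rfl
      omega
    have : Fact (2 < p) := ⟨lt_of_le_of_ne hp.two_le (Ne.symm hp2)⟩
    exact ZMod.neg_one_ne_one (by assumption : (1 : ZMod p) = -1).symm
  obtain ⟨a, m, hm, hnm⟩ := Nat.exists_eq_two_pow_mul_odd hn0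
  obtain ⟨k, hk, -⟩ := ord_jacobi (r := ((Cc g d : ℕ) : ℤ)) (a := a) hm d (Nat.odd_iff.mpr S.hd)
    (fun q hq hqd => by rw [← hnm]; exact powD S hq hqd)
  have ha : a < 2 := by
    by_contra hge
    push_neg at hge
    have h8 : 2 ^ 3 ∣ 2 ^ (a + 1) := pow_dvd_pow 2 (by omega)
    obtain ⟨c, hc⟩ := h8
    rw [hc] at hk
    have : d = 8 * (c * k) + 1 := by rw [hk]; ring
    omega
  have ha1 : a ≠ 0 := by
    rintro rfl
    rw [pow_zero, one_mul] at hnm
    rw [hnm] at hxy
    exact absurd hxy (by rw [Nat.odd_iff.mp hm]; decide)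
  have ha2 : a = 1 := by omega
  rw [ha2, pow_one] at hnm
  obtain ⟨l, hl⟩ := hm
  rw [hl] at hnm
  omega

/-- coprimality of powers of the legs and the hypotenuse -/
theorem cop_AB (hd : d % 2 = 1) (cop : Nat.Coprime g d) : Nat.Coprime (Aa g d) (Bb g d) := by
  have h1 : Nat.Coprime (Aa g d) (Cc g d) := cop_AC hd cop
  have h2 : Nat.Coprime (Aa g d ^ 2) (Aa g d ^ 2 + Bb g d ^ 2) := by
    rw [rel_pyth]; exact (h1.pow 2 2)
  have h3 : Nat.Coprime (Aa g d ^ 2) (Bb g d ^ 2) := by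
    rwa [Nat.coprime_self_add_right] at h2
  exact (Nat.coprime_pow_left_iff (by norm_num) _ _).mp
    ((Nat.coprime_pow_right_iff (by norm_num) _ _).mp h3)

theorem pow16 {n k : ℕ} (hk : k % 2 = 1) (hn : n % 16 = 9) : n ^ k % 16 = 9 := by
  obtain ⟨l, rfl⟩ : ∃ l, k = 2 * l + 1 := ⟨k / 2, by omega⟩
  rw [pow_succ, pow_mul, Nat.mul_mod, Nat.pow_mod, Nat.pow_mod n 2, hn]
  norm_num

theorem mod_one_pow {n k N : ℕ} (hn : n % N = 1 % N) : n ^ k % N = 1 % N := by
  rw [Nat.pow_mod, hn, ← Nat.pow_mod, one_pow]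

end

section
variable {g d x y z : ℕ} (S : Sol g d x y z) (h1 : d % 8 = 5) (h2 : Ss g d % 8 = 5)

include h1 h2 in
theorem g4 : g % 4 = 0 := by unfold Ss at h2; omega

include h1 h2 in
theorem C8 : Cc g d % 8 = 1 := by
  have hg := g4 h1 h2
  obtain ⟨i, hi⟩ : ∃ i, g = 4 * i := ⟨g / 4, by omega⟩
  obtain ⟨l, hl⟩ : ∃ l, d = 8 * l + 5 := ⟨d / 8, by omega⟩
  have : Cc g d = 8 * (2 * i * i + 8 * i * l + 5 * i + 8 * l * l + 10 * l + 3 + 2 * i * i) + 1 := by
    unfold Cc; subst hi; subst hl; ring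
  omega

include S h1 h2 in
/-- the case `z` odd -/
theorem zodd (hz : z % 2 = 1) : False := by
  have hC8 := C8 h1 h2
  have hJ : J(Ss g d | Cc g d) = -1 := by rw [J_sC S.hd S.cop]; exact two_neg (Or.inr h2)
  have hCne : Cc g d ≠ 1 := by
    have hg := S.hg
    have : 1 < Cc g d := by
      unfold Cc
      have h3 : 1 ≤ g ^ 2 := Nat.one_le_pow _ _ hg
      have h4 : 1 ≤ (g + d) ^ 2 := Nat.one_le_pow _ _ (by omega)
      omega
    omega
  obtain ⟨p, hp, hpC⟩ := Nat.exists_prime_and_dvd hCne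
  set n := (y - z) + (z - y) with hn
  have hn0 : n ≠ 0 := by
    intro h0
    have h3 := powC_odd S hz hp hpC
    rw [← hn, h0, mul_zero, pow_zero] at h3
    have : Fact p.Prime := ⟨hp⟩
    have hp2 : p ≠ 2 := by
      rintro rfl
      have := prime_C S.cop S.hd hp hpC
      omega
    have : Fact (2 < p) := ⟨lt_of_le_of_ne hp.two_le (Ne.symm hp2)⟩
    exact ZMod.neg_one_ne_one h3.symm
  obtain ⟨v, m, hm, hnm⟩ := Nat.exists_eq_two_pow_mul_odd hn0
  obtain ⟨k, hk, hJk⟩ := ord_jacobi (r := ((Ss g d : ℕ) : ℤ)) (a := v + 2) hm (Cc g d)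
    (C_odd S.hd) (fun q hq hqd => by
      have := powC_odd S hz hq hqd
      rw [← hn, hnm] at this
      rw [← this]; congr 1; ring)
  rw [hJ] at hJk
  have hkodd : k % 2 = 1 := by
    rcases Nat.even_or_odd k with h | h
    · rw [h.neg_one_pow] at hJk; norm_num at hJk
    · exact Nat.odd_iff.mp h
  have hxy := d5 S h1
  -- `v ≥ 1`
  have hv0 : v = 0 → Cc g d % 16 = 9 := by
    rintro rfl
    obtain ⟨k', rfl⟩ : ∃ k', k = 2 * k' + 1 := ⟨k / 2, by omega⟩
    rw [hk]; norm_num; ring_nf; omega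
  have hv1 : 1 ≤ v → Cc g d % 16 = 1 := by
    intro h
    obtain ⟨v', rfl⟩ := Nat.exists_eq_add_of_le h
    have h5 : Cc g d = 16 * (2 ^ v' * k) + 1 := by
      rw [hk, show 1 + v' + 2 + 1 = 4 + v' by ring, pow_add, mul_assoc]; norm_num
    omega
  have hg := g4 h1 h2
  have hgpos := S.hg
  have eqn := S.eq
  have hxpos := S.hx
  have hypos := S.hy
  have hA2 : Aa g d + 2 * g ^ 2 = Cc g d := by unfold Aa Cc Ss; ring
  rcases (by omega : g % 8 = 0 ∨ g % 8 = 4) with hg8 | hg8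
  · obtain ⟨i, hi⟩ : ∃ i, g = 8 * i := ⟨g / 8, by omega⟩
    obtain ⟨l, hl⟩ : ∃ l, d = 8 * l + 5 := ⟨d / 8, by omega⟩
    have hC : Cc g d = 16 * (4 * (i + l) * (i + l) + 5 * (i + l) + 4 * i * i + 1) + 9 := by
      unfold Cc; subst hi; subst hl; ring
    have hC16 : Cc g d % 16 = 9 := by omega
    have hA16 : Aa g d % 16 = 9 := by
      have : g ^ 2 = 64 * (i * i) := by rw [hi]; ring
      omega
    have hB16 : Bb g d % 16 = 0 := by
      unfold Bb; rw [hi]
      have : 2 * (8 * i + d) * (8 * i) = 16 * ((8 * i + d) * i) := by ring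
      rw [this]; omega
    have hBy : Bb g d ^ y % 16 = 0 := by
      rw [Nat.pow_mod, hB16, zero_pow hypos.ne', Nat.zero_mod]
    have hAz := pow16 hz hA16
    have hxodd : x % 2 = 1 := by
      by_contra hxe
      obtain ⟨X, rfl⟩ : ∃ X, x = 2 * X := ⟨x / 2, by omega⟩
      have : Cc g d ^ (2 * X) % 16 = 1 := by
        rw [pow_mul]
        refine mod_one_pow (N := 16) ?_
        rw [Nat.pow_mod, hC16]
      omega
    have hyodd : y % 2 = 1 := by omega
    have hneven : n % 2 = 0 := by omega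
    have hv : 1 ≤ v := by
      by_contra h
      have hv' : v = 0 := by omega
      rw [hv', pow_zero, one_mul] at hnm
      have := Nat.odd_iff.mp hm
      omega
    have := hv1 hv
    omega
  · obtain ⟨i, hi⟩ : ∃ i, g = 8 * i + 4 := ⟨g / 8, by omega⟩
    obtain ⟨l, hl⟩ : ∃ l, d = 8 * l + 5 := ⟨d / 8, by omega⟩
    set j := i + l + 1 with hj
    have hC : Cc g d = 64 * (j * j + i * i + i) + 16 * (j + 1) + 1 := by
      unfold Cc; subst hi; subst hl; rw [hj]; ring
    have hg2 : g ^ 2 = 64 * (i * i + i) + 16 := by rw [hi]; ring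
    have hC16 : Cc g d % 16 = 1 := by omega
    have hv : 1 ≤ v := by
      by_contra h
      have := hv0 (by omega)
      omega
    have hneven : n % 2 = 0 := by
      rw [hnm]
      obtain ⟨v', rfl⟩ := Nat.exists_eq_add_of_le hv
      rw [pow_add, pow_one, mul_assoc]; omega
    have hyodd : y % 2 = 1 := by omega
    have hxodd : x % 2 = 1 := by omega
    have hA16 : Aa g d % 16 = 1 := by omega
    have hB : Bb g d = 8 * ((8 * j + 1) * (2 * i + 1)) := by
      unfold Bb; subst hi; subst hl; rw [hj]; ring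
    have hCx16 : Cc g d ^ x % 16 = 1 := mod_one_pow (N := 16) hC16
    have hAz16 : Aa g d ^ z % 16 = 1 := mod_one_pow (N := 16) hA16
    have hy2 : 2 ≤ y := by
      by_contra hy1
      have : y = 1 := by omega
      rw [this, pow_one] at eqn
      have hB16 : Bb g d % 16 = 8 := by
        rw [hB]
        have : (8 * j + 1) * (2 * i + 1) = 2 * (j * (8 * i) + 4 * j + i) + 1 := by ring
        rw [this]; omega
      omega
    have hBy : ∃ w, Bb g d ^ y = 64 * w := by
      obtain ⟨y', rfl⟩ := Nat.exists_eq_add_of_le hy2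
      refine ⟨((8 * j + 1) * (2 * i + 1)) ^ 2 * Bb g d ^ y', ?_⟩
      have hB2 : Bb g d ^ 2 = 64 * ((8 * j + 1) * (2 * i + 1)) ^ 2 := by rw [hB]; ring
      rw [pow_add, hB2]; ring
    obtain ⟨w, hw⟩ := hBy
    -- powers modulo 64
    have hpow : ∀ (t e : ℕ), (16 * t + 1) ^ e % 64 = (16 * (e * t) + 1) % 64 := by
      intro t e
      induction e with
      | zero => simp
      | succ e ih =>
        rw [pow_succ, Nat.mul_mod, ih, ← Nat.mul_mod]
        have : (16 * (e * t) + 1) * (16 * t + 1) = 64 * (4 * (e * t) * t) + (16 * ((e + 1) * t) + 1) := by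
          ring
        rw [this]; omega
    have hCm : Cc g d % 64 = (16 * (j + 1) + 1) % 64 := by omega
    have hAm : Aa g d % 64 = (16 * (j + 3) + 1) % 64 := by omega
    have hCx : Cc g d ^ x % 64 = (16 * (x * (j + 1)) + 1) % 64 := by
      rw [Nat.pow_mod, hCm, ← Nat.pow_mod, hpow]
    have hAz : Aa g d ^ z % 64 = (16 * (z * (j + 3)) + 1) % 64 := by
      rw [Nat.pow_mod, hAm, ← Nat.pow_mod, hpow]
    have hrel : (x * (j + 1)) % 4 = (z * (j + 3)) % 4 := by omega
    have hrel2 : ((x % 4) * ((j + 1) % 4)) % 4 = ((z % 4) * ((j + 3) % 4)) % 4 := by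
      rw [← Nat.mul_mod, ← Nat.mul_mod]; exact hrel
    have hx4 : x % 4 = 1 ∨ x % 4 = 3 := by omega
    have hz4 : z % 4 = 1 ∨ z % 4 = 3 := by omega
    have hj4 : j % 4 = 0 ∨ j % 4 = 1 ∨ j % 4 = 2 ∨ j % 4 = 3 := by omega
    have hfin : j % 2 = 0 ∧ (x + z) % 4 = 0 := by
      rcases hj4 with e | e | e | e <;>
        rw [show (j + 1) % 4 = (j % 4 + 1) % 4 by omega, show (j + 3) % 4 = (j % 4 + 3) % 4 by omega,
          e] at hrel2 <;>
        rcases hx4 with e1 | e1 <;> rcases hz4 with e2 | e2 <;> rw [e1, e2] at hrel2 <;>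
        first | (exfalso; revert hrel2; decide) | (constructor <;> omega)
    obtain ⟨hje, hxz⟩ := hfin
    have hC32 : Cc g d % 32 = 17 := by omega
    have hv2 : v < 2 := by
      by_contra h
      push_neg at h
      obtain ⟨v', rfl⟩ := Nat.exists_eq_add_of_le h
      have h5 : Cc g d = 32 * (2 ^ v' * k) + 1 := by
        rw [hk, show 2 + v' + 2 + 1 = 5 + v' by ring, pow_add, mul_assoc]; norm_num
      omega
    have hv3 : v = 1 := by omega
    rw [hv3, pow_one] at hnm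
    obtain ⟨m', hm'⟩ := hm
    have hval := val_xy S h1 (by omega)
    omega

include S h1 h2 in
theorem zeven (hz : z % 2 = 0) : False := by
  obtain ⟨Z, rfl⟩ : ∃ Z, z = 2 * Z := ⟨z / 2, by omega⟩
  have hC8 := C8 h1 h2
  have hJ : J(Ss g d | Cc g d) = -1 := by rw [J_sC S.hd S.cop]; exact two_neg (Or.inr h2)
  have hxy := d5 S h1
  have hg := g4 h1 h2
  have eqn := S.eq
  have hZ0 : 0 < Z := by have := S.hz; omega
  -- `y` even
  have hye : y % 2 = 0 := by
    by_contra hyo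
    set m := (y - 2 * Z) + (2 * Z - y) with hm
    have hmo : Odd m := Nat.odd_iff.mpr (by omega)
    rcases Nat.even_or_odd Z with hZ | hZ
    · have := sq_one_jacobi (r := ((Ss g d : ℕ) : ℤ)) hmo (Cc g d) (C_odd S.hd)
        (fun q hq hqd => prime_C S.cop S.hd hq hqd)
        (fun q hq hqd => by
          have h3 := powC_even S rfl hq hqd
          rw [hZ.neg_one_pow] at h3
          exact h3)
      rw [hJ] at this; norm_num at this
    · obtain ⟨k, hk, hJk⟩ := ord_jacobi (r := ((Ss g d : ℕ) : ℤ)) (a := 1) hmo (Cc g d)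
        (C_odd S.hd) (fun q hq hqd => by
          have h3 := powC_even S rfl hq hqd
          rw [hZ.neg_one_pow] at h3
          rw [pow_one]; exact h3)
      rw [hJ] at hJk
      have hke : k % 2 = 0 := by
        rw [hk] at hC8; norm_num at hC8; omega
      rw [(Nat.even_iff.mpr hke).neg_one_pow] at hJk
      norm_num at hJk
  obtain ⟨Y, rfl⟩ : ∃ Y, y = 2 * Y := ⟨y / 2, by omega⟩
  obtain ⟨X, rfl⟩ : ∃ X, x = 2 * X := ⟨x / 2, by omega⟩
  have hX0 : 0 < X := by have := S.hx; omega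
  have hY0 : 0 < Y := by have := S.hy; omega
  have hval := val_xy S h1 (by omega)
  have hXY : (X + Y) % 2 = 1 := by omega
  have hA0 : 0 < Aa g d := by
    unfold Aa Ss; have := S.hg; have := S.hd
    exact Nat.mul_pos (by omega) (by omega)
  have hB0 : 0 < Bb g d := by
    unfold Bb; have := S.hg
    exact Nat.mul_pos (by omega) this
  have hC0 : 0 < Cc g d := (C_odd S.hd).pos
  have copAC : Nat.Coprime (Aa g d) (Cc g d) := cop_AC S.hd S.cop
  have copAB : Nat.Coprime (Aa g d) (Bb g d) := cop_AB S.hd S.cop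
  -- `Z` odd
  have hZo : Z % 2 = 1 := by
    by_contra hZe
    obtain ⟨Z1, rfl⟩ : ∃ Z1, Z = 2 * Z1 := ⟨Z / 2, by omega⟩
    rcases (by omega : X % 2 = 0 ∨ Y % 2 = 0) with hX | hY
    · obtain ⟨X1, rfl⟩ : ∃ X1, X = 2 * X1 := ⟨X / 2, by omega⟩
      refine no_diff (a := Aa g d ^ Z1) (b := Cc g d ^ X1) (c := Bb g d ^ Y)
        (copAC.pow _ _) (pow_pos hC0 _).ne' (pow_pos hB0 _).ne' ?_
      rw [← pow_mul, ← pow_mul, ← pow_mul, show Z1 * 4 = 2 * (2 * Z1) by ring,
        show X1 * 4 = 2 * (2 * X1) by ring, show Y * 2 = 2 * Y by ring, eqn]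
    · obtain ⟨Y1, rfl⟩ : ∃ Y1, Y = 2 * Y1 := ⟨Y / 2, by omega⟩
      refine no_diff (a := Aa g d ^ Z1) (b := Bb g d ^ Y1) (c := Cc g d ^ X)
        (copAB.pow _ _) (pow_pos hB0 _).ne' (pow_pos hC0 _).ne' ?_
      rw [← pow_mul, ← pow_mul, ← pow_mul, show Z1 * 4 = 2 * (2 * Z1) by ring,
        show Y1 * 4 = 2 * (2 * Y1) by ring, show X * 2 = 2 * X by ring, ← eqn, add_comm]
  rcases (by omega : Y % 2 = 0 ∨ X % 2 = 0) with hYe | hXe
  · -- 4a
    obtain ⟨Y1, rfl⟩ : ∃ Y1, Y = 2 * Y1 := ⟨Y / 2, by omega⟩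
    have hXo : X % 2 = 1 := by omega
    set m := (2 * Y1 - Z) + (Z - 2 * Y1) with hm
    have hmo : Odd m := Nat.odd_iff.mpr (by omega)
    obtain ⟨k, hk, hJk⟩ := ord_jacobi (r := ((Ss g d : ℕ) : ℤ)) (a := 2) hmo (Cc g d)
        (C_odd S.hd) (fun q hq hqd => by
          have h3 := powC_even S rfl hq hqd
          rw [(Nat.odd_iff.mpr hZo).neg_one_pow] at h3
          rw [← h3]; congr 1; omega)
    rw [hJ] at hJk
    have hkodd : k % 2 = 1 := by
      rcases Nat.even_or_odd k with h | h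
      · rw [h.neg_one_pow] at hJk; norm_num at hJk
      · exact Nat.odd_iff.mp h
    have hC16 : Cc g d % 16 = 9 := by rw [hk]; norm_num; omega
    obtain ⟨i, hi⟩ : ∃ i, g = 4 * i := ⟨g / 4, by omega⟩
    have hA2 : Aa g d + 2 * g ^ 2 = Cc g d := by unfold Aa Cc Ss; ring
    have hg2 : g ^ 2 = 16 * (i * i) := by rw [hi]; ring
    have hA16 : Aa g d % 16 = 9 := by omega
    have hAZ : Aa g d ^ Z % 16 = 9 := pow16 hZo hA16
    -- the Pythagorean triple
    have htri : PythagoreanTriple (((Cc g d : ℕ) : ℤ) ^ X) (((Bb g d : ℕ) : ℤ) ^ (2 * Y1))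
        (((Aa g d : ℕ) : ℤ) ^ Z) := by
      unfold PythagoreanTriple
      have h3 : ((Cc g d : ℕ) : ℤ) ^ (2 * X) + ((Bb g d : ℕ) : ℤ) ^ (2 * (2 * Y1))
          = ((Aa g d : ℕ) : ℤ) ^ (2 * Z) := by exact_mod_cast eqn
      rw [← sq, ← sq, ← sq, ← pow_mul, ← pow_mul, ← pow_mul, mul_comm X, mul_comm (2 * Y1),
        mul_comm Z]
      exact h3
    have hgc : Int.gcd (((Cc g d : ℕ) : ℤ) ^ X) (((Bb g d : ℕ) : ℤ) ^ (2 * Y1)) = 1 := by
      have : Nat.Coprime (Cc g d ^ X) (Bb g d ^ (2 * Y1)) := (cop_BC S.hd S.cop).symm.pow _ _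
      exact_mod_cast this
    have hC4 : Cc g d ^ X % 4 = 1 := mod_one_pow (N := 4) (by omega)
    have hC4' : (((Cc g d : ℕ) : ℤ) ^ X) % 4 = 1 := by exact_mod_cast hC4
    obtain ⟨u, v, e1, e2, e3, e4, e5, e6⟩ := htri.coprime_classification' hgc (by omega)
      (by positivity)
    -- `u` odd, `v` even
    have huv : u % 2 = 1 ∧ v % 2 = 0 := by
      rcases e5 with ⟨h3, h4⟩ | h3
      · exfalso
        obtain ⟨u', hu'⟩ : ∃ u', u = 2 * u' := ⟨u / 2, by omega⟩
        obtain ⟨v', hv'⟩ : ∃ v', v = 2 * v' + 1 := ⟨v / 2, by omega⟩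
        have : u ^ 2 - v ^ 2 = 4 * (u' ^ 2 - v' ^ 2 - v' - 1) + 3 := by rw [hu', hv']; ring
        rw [e1, this] at hC4'
        omega
      · exact h3
    have h8B : (8 : ℤ) ∣ ((Bb g d : ℕ) : ℤ) := by
      refine ⟨((g + d) * i : ℕ), ?_⟩
      unfold Bb
      push_cast
      have : (g : ℤ) = 4 * i := by exact_mod_cast hi
      linear_combination (2 * (g + d) : ℤ) * this
    obtain ⟨b, hb⟩ := h8B
    set W : ℤ := ((Bb g d : ℕ) : ℤ) ^ Y1 with hW
    have hY1 : Y1 ≠ 0 := by rintro rfl; omega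
    have h8W : (8 : ℤ) ∣ W := by
      rw [hW]; exact (Dvd.intro _ hb.symm).trans (dvd_pow_self _ hY1)
    obtain ⟨w, hw⟩ := h8W
    have hWW : ((Bb g d : ℕ) : ℤ) ^ (2 * Y1) = W ^ 2 := by rw [hW, ← pow_mul, mul_comm]
    obtain ⟨v', hv'⟩ : ∃ v', v = 2 * v' := ⟨v / 2, by omega⟩
    have huv' : u * v' = (4 * w) ^ 2 := by
      have : 4 * (u * v') = 4 * (4 * w) ^ 2 := by
        have h3 : W ^ 2 = 2 * u * v := by rw [← hWW, e2]
        rw [hw, hv'] at h3
        linear_combination -h3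
      linarith
    have hWpos : 0 < W := by rw [hW]; positivity
    have hwpos : 0 < w := by omega
    have hprod : 0 < u * v' := by rw [huv']; positivity
    have hupos : 0 < u := by
      rcases e6.lt_or_eq with h | h
      · exact h
      · rw [← h] at hprod; simp at hprod
    have hcop' : Int.gcd u v' = 1 := by
      have h3 : IsCoprime u v := Int.isCoprime_iff_gcd_eq_one.mpr e4
      exact Int.isCoprime_iff_gcd_eq_one.mp (h3.of_isCoprime_of_dvd_right ⟨2, by rw [hv']; ring⟩)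
    obtain ⟨t, ht⟩ := sq_pos_of_coprime hcop' hupos huv'
    have hto : t % 2 = 1 := by
      rcases Int.emod_two_eq_zero_or_one t with h | h
      · exfalso
        obtain ⟨t', ht'⟩ : ∃ t', t = 2 * t' := ⟨t / 2, by omega⟩
        rw [ht, ht'] at huv
        have h4 := huv.1
        have : (2 * t') ^ 2 = 2 * (2 * t' ^ 2) := by ring
        rw [this] at h4; omega
      · exact h
    have hu4 : u ^ 2 % 16 = 1 := by
      rw [ht]
      have h5 : t % 16 = 1 ∨ t % 16 = 3 ∨ t % 16 = 5 ∨ t % 16 = 7 ∨ t % 16 = 9 ∨ t % 16 = 11 ∨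
        t % 16 = 13 ∨ t % 16 = 15 := by omega
      rcases h5 with h' | h' | h' | h' | h' | h' | h' | h' <;> simp [pow_succ, Int.mul_emod, h']
    -- `v'` is divisible by 4
    have hv4 : v ^ 2 % 16 = 0 := by
      have h16 : IsCoprime (16 : ℤ) u := by
        have : IsCoprime (2 : ℤ) u := by
          rw [Int.isCoprime_iff_gcd_eq_one]
          have := huv.1
          rw [Int.gcd_comm]
          exact Int.isCoprime_iff_gcd_eq_one.mp ⟨1, -(u / 2), by omega⟩
        have h17 : IsCoprime ((2 : ℤ) ^ 4) u := this.pow_left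
        norm_num at h17; exact h17
      have h18 : (16 : ℤ) ∣ u * v' := ⟨w ^ 2, by rw [huv']; ring⟩
      obtain ⟨c, hc⟩ := h16.dvd_of_dvd_mul_left h18
      have : v ^ 2 = 16 * (64 * c ^ 2) := by rw [hv', hc]; ring
      rw [this]; omega
    have hAZ' : (((Aa g d : ℕ) : ℤ) ^ Z) % 16 = 9 := by exact_mod_cast hAZ
    rw [e3] at hAZ'
    omega
  · -- 4b
    obtain ⟨X1, rfl⟩ : ∃ X1, X = 2 * X1 := ⟨X / 2, by omega⟩
    have hlt : Bb g d ^ Y < Aa g d ^ Z := by
      have h3 : (Bb g d ^ Y) ^ 2 < (Aa g d ^ Z) ^ 2 := by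
        rw [← pow_mul, ← pow_mul, mul_comm Y, mul_comm Z, ← eqn]
        have : 0 < Cc g d ^ (2 * (2 * X1)) := pow_pos hC0 _
        omega
      exact lt_of_pow_lt_pow_left₀ 2 (Nat.zero_le _) h3
    set P := Aa g d ^ Z with hP
    set Q := Bb g d ^ Y with hQ
    have hprod : (P - Q) * (P + Q) = (Cc g d ^ X1) ^ 4 := by
      have h3 : (P - Q) * (P + Q) = P ^ 2 - Q ^ 2 := by
        rw [mul_comm, ← Nat.sq_sub_sq]
      rw [h3, hP, hQ, ← pow_mul, ← pow_mul, ← pow_mul, mul_comm Z, mul_comm Y, ← eqn,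
        Nat.add_sub_cancel]
      congr 1; ring
    have hPodd : P % 2 = 1 := by
      rw [hP]
      have : Odd (Aa g d) := (Nat.odd_iff.mpr S.hd).mul (S_odd S.hd)
      exact Nat.odd_iff.mp this.pow
    have hQeven : Q % 2 = 0 := by
      rw [hQ]
      have : Even (Bb g d) := by unfold Bb; exact ⟨(g + d) * g, by ring⟩
      exact Nat.even_iff.mp (this.pow_of_ne_zero hY0.ne')
    have hPQ : Nat.Coprime P Q := copAB.pow _ _
    have hcop : Nat.Coprime (P - Q) (P + Q) := by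
      have h3 : Nat.Coprime (P - Q) Q := (Nat.coprime_sub_self_left hlt.le).mpr hPQ
      have h4 : Nat.Coprime (P - Q) 2 := Nat.coprime_two_right.mpr (Nat.odd_iff.mpr (by omega))
      have h5 : P + Q = 2 * Q + (P - Q) := by omega
      rw [h5, Nat.coprime_add_self_right]
      exact h4.mul_right h3
    obtain ⟨u, hu⟩ := exists_eq_pow_of_mul_eq_pow (Nat.isUnit_iff.mpr hcop) hprod
    obtain ⟨w, hw⟩ := exists_eq_pow_of_mul_eq_pow (Nat.isUnit_iff.mpr hcop.symm)
      (by rw [mul_comm]; exact hprod)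
    have hsum : u ^ 4 + w ^ 4 = 2 * P := by rw [← hu, ← hw]; omega
    have hwd : Nat.Coprime w d := by
      have h3 : Nat.Coprime (w ^ 4) d := by
        rw [← hw]
        have h4 : Nat.Coprime ((P - Q) * (P + Q)) d := by
          rw [hprod, ← pow_mul]
          exact ((cop_dC S.hd S.cop).symm.pow_left _)
        exact Nat.Coprime.coprime_mul_left h4
      exact (Nat.coprime_pow_left_iff (by norm_num) _ _).mp h3
    obtain ⟨k, hk, -⟩ := ord_jacobi (r := (u : ℤ) * (Nat.gcdA w d)) (a := 2) (m := 1) odd_one d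
      (Nat.odd_iff.mpr S.hd) (fun q hq hqd => by
        have hbez : ((w : ℤ) * Nat.gcdA w d + d * Nat.gcdB w d : ℤ) = 1 := by
          rw [← Nat.gcd_eq_gcd_ab, hwd]; rfl
        have hd0 : ((d : ℕ) : ZMod q) = 0 := (ZMod.natCast_eq_zero_iff _ _).mpr hqd
        have h4 : (w : ZMod q) * ((Nat.gcdA w d : ℤ) : ZMod q) = 1 := by
          have := congrArg (fun n : ℤ => (n : ZMod q)) hbez
          push_cast at this
          rw [hd0] at this
          simpa using this
        have h5 : (u : ZMod q) ^ 4 = -(w : ZMod q) ^ 4 := by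
          have h6 : ((P : ℕ) : ZMod q) = 0 := by
            rw [ZMod.natCast_eq_zero_iff, hP]
            exact (hqd.trans (Dvd.intro _ rfl)).trans (dvd_pow_self _ (by omega))
          have := congrArg (fun n : ℕ => (n : ZMod q)) hsum
          push_cast at this
          rw [h6] at this
          linear_combination this
        push_cast
        rw [mul_pow, h5]
        have h8 : -(w : ZMod q) ^ 4 * ((Nat.gcdA w d : ℤ) : ZMod q) ^ 4
          = -((w : ZMod q) * ((Nat.gcdA w d : ℤ) : ZMod q)) ^ 4 := by ring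
        rw [h8, h4, one_pow])
    norm_num at hk
    omega

end

/-- The class `f - g = 5`, `f + g = 5` modulo 8. -/
theorem k55 {g d x y z : ℕ} (S : Sol g d x y z) (h1 : d % 8 = 5) (h2 : Ss g d % 8 = 5) : False := by
  rcases Nat.mod_two_eq_zero_or_one z with hz | hz
  · exact zeven S h1 h2 hz
  · exact zodd S h1 h2 hz

end Pool.Agent.H71M.H15
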